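import Pool.Agent.L0h20.AS.Stm

set_option autoImplicit false

/-!
# The evaluation commutes with permutations
-/

namespace Pool.Agent.L0h96.AS

open Pool.Agent.L0h36.BG Pool.Agent.L0h36.BF Pool.Agent.L0h20.SY Pool.Agent.L0h20.AS

variable {p n : ℕ}

theorem permOf_univ (σ : Equiv.Perm (Fin n)) : PermOf (Finset.univ : Finset (Fin n)) σ :=
  fun x hx => absurd (Finset.mem_univ x) hx

theorem sup_map {A : Finset (Fin n)} {y : Cl p n} (σ : Equiv.Perm (Fin n))
    (h : Sup Finset.univ A y) : Sup Finset.univ (A.map σ.toEmbedding) (σ • y) := by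
  intro τ _ hτ
  have h1 : (σ⁻¹ * τ * σ) • y = y := by
    apply h _ (permOf_univ _)
    intro a ha
    have h2 : τ (σ a) = σ a := hτ (σ a) (Finset.mem_map_of_mem σ.toEmbedding ha)
    rw [Equiv.Perm.mul_apply, Equiv.Perm.mul_apply, h2]
    exact σ.symm_apply_apply a
  have h3 : σ • ((σ⁻¹ * τ * σ) • y) = τ • σ • y := by
    rw [← mul_smul, ← mul_smul]
    congr 1
    group
  rw [← h3, h1]

theorem good_map {R : Finset (Fin n)} {k : ℕ} {y : Cl p n} (σ : Equiv.Perm (Fin n))
    (h : Good Finset.univ R k y) :
    Good Finset.univ (R.map σ.toEmbedding) k (σ • y) := by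
  obtain ⟨A, -, h2, h3, h4⟩ := h
  refine ⟨A.map σ.toEmbedding, Finset.subset_univ _, ?_, ?_, sup_map σ h4⟩
  · rw [Finset.card_map]
    exact h2
  · rw [Finset.disjoint_map]
    exact h3

theorem good_map_iff {R : Finset (Fin n)} {k : ℕ} {y : Cl p n} (σ : Equiv.Perm (Fin n)) :
    Good Finset.univ (R.map σ.toEmbedding) k (σ • y) ↔ Good Finset.univ R k y := by
  constructor
  · intro h
    have h1 := good_map σ⁻¹ h
    rw [inv_smul_smul, Finset.map_map] at h1
    have h2 : σ.toEmbedding.trans (σ⁻¹).toEmbedding = Function.Embedding.refl _ := by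
      ext x
      simp
    rw [h2, Finset.map_refl] at h1
    exact h1
  · exact good_map σ

theorem t_EQV : S_EQV := by
  intro p n k R P σ φ
  induction φ with
  | var e =>
    change e.map σ.toEmbedding ∈ P.image (fun e => e.map σ.toEmbedding) ↔ e ∈ P
    rw [Finset.mem_image]
    constructor
    · rintro ⟨a, ha, h⟩
      have := Finset.map_injective σ.toEmbedding h
      rwa [← this]
    · intro h
      exact ⟨e, h, rfl⟩
  | neg φ ih => exact not_congr ih
  | and m f ih =>
    change (∀ j, Good Finset.univ (R.map σ.toEmbedding) k (cl (image σ (f j))) →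
        V Finset.univ (R.map σ.toEmbedding) k (P.image fun e => e.map σ.toEmbedding)
          (image σ (f j))) ↔ ∀ j, Good Finset.univ R k (cl (f j)) → V Finset.univ R k P (f j)
    apply forall_congr'
    intro j
    rw [← smul_cl, good_map_iff, ih j]
  | or m f ih =>
    change (∃ j, Good Finset.univ (R.map σ.toEmbedding) k (cl (image σ (f j))) ∧
        V Finset.univ (R.map σ.toEmbedding) k (P.image fun e => e.map σ.toEmbedding)
          (image σ (f j))) ↔ ∃ j, Good Finset.univ R k (cl (f j)) ∧ V Finset.univ R k P (f j)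
    apply exists_congr
    intro j
    rw [← smul_cl, good_map_iff, ih j]
  | mod i m f ih =>
    have h : {j | Good Finset.univ (R.map σ.toEmbedding) k (cl (image σ (f j))) ∧
        V Finset.univ (R.map σ.toEmbedding) k (P.image fun e => e.map σ.toEmbedding)
          (image σ (f j))} = {j | Good Finset.univ R k (cl (f j)) ∧ V Finset.univ R k P (f j)} := by
      ext j
      rw [Set.mem_ofPred_eq, Set.mem_ofPred_eq, ← smul_cl, good_map_iff, ih j]
    change (({j | Good Finset.univ (R.map σ.toEmbedding) k (cl (image σ (f j))) ∧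
        V Finset.univ (R.map σ.toEmbedding) k (P.image fun e => e.map σ.toEmbedding)
          (image σ (f j))}.ncard : ℕ) : ZMod p) = i ↔
      (({j | Good Finset.univ R k (cl (f j)) ∧ V Finset.univ R k P (f j)}.ncard : ℕ) : ZMod p) = i
    rw [h]

end Pool.Agent.L0h96.AS
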